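import Pool.Agent.U378.Tour.Main

/-! The exact bound for 3-graphs encoded by a tournament and a graph. -/

set_option autoImplicit false
open Finset
open scoped Classical

namespace Pool.Agent.U378.Tour.Enc

/-- The 3-graph of the oriented graph `D` and the graph `P`: the triples with a vertex `z` which
sends arcs of `D` to the two other vertices `x`, `y`, such that `x` and `y` are adjacent in `P` and
`z` is not adjacent in `P` to both `x` and `y`. -/
noncomputable def encoded {n : ℕ} (D P : Fin n → Fin n → Prop) : Finset (Finset (Fin n)) :=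
  (univ.powersetCard 3).filter fun s : Finset (Fin n) =>
    ∃ z ∈ s, ∃ x ∈ s, ∃ y ∈ s, x ≠ y ∧ D z x ∧ D z y ∧ P x y ∧ ¬ (P z x ∧ P z y)

theorem mem_enc {n : ℕ} {D P : Fin n → Fin n → Prop} {e : Finset (Fin n)} (h3 : e.card = 3)
    (h : ∃ z ∈ e, ∃ x ∈ e, ∃ y ∈ e, x ≠ y ∧ D z x ∧ D z y ∧ P x y ∧ ¬ (P z x ∧ P z y)) :
    e ∈ encoded D P := by
  unfold encoded
  rw [mem_filter, mem_powersetCard]
  exact ⟨⟨subset_univ _, h3⟩, h⟩

/-- Turán's number `f(n)`: `f(3s) = s(s-1)(2s-1)`, `f(3s+1) = s^2(2s-1)`, `f(3s+2) = s^2(2s+1)`.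
Turán's construction has `C(n,3) - f(n)` edges. -/
def turan (n : ℕ) : ℕ :=
  if n % 3 = 0 then (n / 3) * (n / 3 - 1) * (2 * (n / 3) - 1)
  else if n % 3 = 1 then (n / 3) ^ 2 * (2 * (n / 3) - 1)
  else (n / 3) ^ 2 * (2 * (n / 3) + 1)

open Pool.Agent.U378.Tour

/-- the tournament which contains the oriented graph `D` -/
noncomputable def compl {n : ℕ} (D : Fin n → Fin n → Prop) (x y : Fin n) : Bool :=
  decide (D x y ∨ (¬ D y x ∧ x < y))

theorem tourn_compl {n : ℕ} {D : Fin n → Fin n → Prop} (hD : ∀ x y, D x y → ¬ D y x) :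
    Tourn (compl D) := by
  constructor
  · intro x
    unfold compl
    rw [decide_eq_false_iff_not]
    rintro (h | h)
    · exact hD x x h h
    · exact lt_irrefl x h.2
  · intro x y hxy
    unfold compl
    have h := lt_or_gt_of_ne hxy
    have h1 := hD x y
    have h2 := hD y x
    by_cases a : D x y <;> by_cases b : D y x
    · exact absurd b (h1 a)
    · simp [a, b]
    · simp [a, b]
    · rcases h with h | h
      · simp [a, b, h, not_lt.2 h.le]
      · simp [a, b, h, not_lt.2 h.le]

/-- the graph -/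
noncomputable def gra {n : ℕ} (P : Fin n → Fin n → Prop) (x y : Fin n) : Bool :=
  decide (x ≠ y ∧ P x y)

theorem gr_gra {n : ℕ} {P : Fin n → Fin n → Prop} (hP : ∀ x y, P x y → P y x) : Gr (gra P) := by
  constructor
  · intro x
    unfold gra
    simp
  · intro x y
    unfold gra
    have : (x ≠ y ∧ P x y) ↔ (y ≠ x ∧ P y x) :=
      ⟨fun h => ⟨h.1.symm, hP _ _ h.2⟩, fun h => ⟨h.1.symm, hP _ _ h.2⟩⟩
    rw [decide_eq_decide]
    exact this

theorem sub_hs {n : ℕ} {D P : Fin n → Fin n → Prop} (hD : ∀ x y, D x y → ¬ D y x) :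
    encoded D P ⊆ hs (compl D) (gra P) := by
  intro s hs'
  unfold encoded at hs'
  rw [mem_filter, mem_powersetCard] at hs'
  obtain ⟨⟨_, h3⟩, z, hz, x, hx, y, hy, hxy, d1, d2, p1, p2⟩ := hs'
  have zx : z ≠ x := by
    rintro rfl
    exact hD _ _ d1 d1
  have zy : z ≠ y := by
    rintro rfl
    exact hD _ _ d2 d2
  have hv : vs (z, x, y) = s := by
    apply eq_of_subset_of_card_le
    · unfold vs
      intro w hw
      simp only [mem_insert, mem_singleton] at hw
      rcases hw with rfl | rfl | rfl <;> assumption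
    · rw [h3]
      unfold vs
      rw [card_insert_of_notMem, card_insert_of_notMem, card_singleton]
      · simpa using hxy
      · simp [zx, zy]
  unfold hs
  rw [← hv]
  apply mem_image_of_mem
  rw [mem_tset]
  have a1 : compl D z x = true := by unfold compl; simp [d1]
  have a2 : compl D z y = true := by unfold compl; simp [d2]
  have a3 : gra P x y = true := by unfold gra; simp [hxy, p1]
  rw [a1, a2, a3]
  unfold gra
  simp only [ne_eq, Bool.true_and, Bool.not_eq_true', Bool.and_eq_false_iff,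
    decide_eq_false_iff_not, not_and]
  by_cases h : P z x
  · right
    intro _ h'
    exact p2 ⟨h, h'⟩
  · left
    intro _
    exact h

theorem upper {n : ℕ} {D P : Fin n → Fin n → Prop} (hD : ∀ x y, D x y → ¬ D y x)
    (hP : ∀ x y, P x y → P y x) : (encoded D P).card + turan n ≤ n.choose 3 := by
  have h := tournament_bound (tourn_compl hD) (gr_gra hP)
  rw [Fintype.card_fin] at h
  have h1 := card_le_card (sub_hs (P := P) hD)
  have h2 : turan n = Pool.Agent.TH173.OE.turan n := rfl
  rw [h2]
  omega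


/-- The 3-graph `H` has no four vertices spanning all four triples. -/
def K43Free {n : ℕ} (H : Finset (Finset (Fin n))) : Prop :=
  ∀ S : Finset (Fin n), S.card = 4 → ∃ s ⊆ S, s.card = 3 ∧ s ∉ H

/-- the truth value of: the triple `x, y, z` is an edge, where `dxy`, ... are the arcs and `pxy`,
... are the edges of the graph -/
def tri (dxy dyx dxz dzx dyz dzy pxy pxz pyz : Bool) : Bool :=
  (dxy && dxz && pyz && !(pxy && pxz)) || (dyx && dyz && pxz && !(pxy && pyz)) ||
    (dzx && dzy && pxy && !(pxz && pyz))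

theorem four : ∀ a b c d e f p q r s t u : Bool,
    (tri a (!a) b (!b) d (!d) p q s && tri a (!a) c (!c) e (!e) p r t &&
      tri b (!b) c (!c) f (!f) q r u && tri d (!d) e (!e) f (!f) s t u) = false := by
  decide +kernel

theorem mem_encoded {n : ℕ} {D P : Fin n → Fin n → Prop} (hD : ∀ x y, D x y → ¬ D y x)
    (hP : ∀ x y, P x y → P y x) {x y z : Fin n} (hxy : x ≠ y) (hxz : x ≠ z) (hyz : y ≠ z)
    (h : ({x, y, z} : Finset (Fin n)) ∈ encoded D P) :
    tri (compl D x y) (!compl D x y) (compl D x z) (!compl D x z) (compl D y z) (!compl D y z)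
      (gra P x y) (gra P x z) (gra P y z) = true := by
  have hb := tourn_compl hD
  have hg := gr_gra hP
  have e1 : (!compl D x y) = compl D y x := by rw [hb.2 y x hxy.symm]
  have e2 : (!compl D x z) = compl D z x := by rw [hb.2 z x hxz.symm]
  have e3 : (!compl D y z) = compl D z y := by rw [hb.2 z y hyz.symm]
  rw [e1, e2, e3]
  have h' := sub_hs hD h
  unfold hs at h'
  obtain ⟨⟨c, a, b⟩, ht, hv⟩ := mem_image.1 h'
  obtain ⟨n1, n2, n3, _⟩ := tset_facts hb hg ht
  rw [mem_tset] at ht
  have hm := Finset.ext_iff.1 hv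
  unfold vs at hm
  simp only [mem_insert, mem_singleton] at hm
  have hc := (hm c).1 (Or.inl rfl)
  have ha := (hm a).1 (Or.inr (Or.inl rfl))
  have hb' := (hm b).1 (Or.inr (Or.inr rfl))
  have g1 := hg.2 y x
  have g2 := hg.2 z x
  have g3 := hg.2 z y
  unfold tri
  rcases hc with hc | hc | hc <;> rcases ha with ha | ha | ha <;>
    rcases hb' with hb' | hb' | hb' <;> first
    | exact absurd (hc.trans ha.symm) n1
    | exact absurd (hc.trans hb'.symm) n2
    | exact absurd (ha.trans hb'.symm) n3
    | (rw [hc, ha, hb'] at ht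
       revert ht
       clear hm hv h' h e1 e2 e3 hb hg hD hP hc ha hb'
       try rw [g1]
       try rw [g2]
       try rw [g3]
       clear g1 g2 g3
       generalize compl D x y = u1
       generalize compl D y x = u2
       generalize compl D x z = u3
       generalize compl D z x = u4
       generalize compl D y z = u5
       generalize compl D z y = u6
       generalize gra P x y = v1
       generalize gra P x z = v2
       generalize gra P y z = v3
       revert u1 u2 u3 u4 u5 u6 v1 v2 v3
       decide +kernel)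

theorem k43 {n : ℕ} {D P : Fin n → Fin n → Prop} (hD : ∀ x y, D x y → ¬ D y x)
    (hP : ∀ x y, P x y → P y x) : K43Free (encoded D P) := by
  intro S hS
  by_contra hcon
  push Not at hcon
  obtain ⟨x, y, z, w, hxy, hxz, hxw, hyz, hyw, hzw, rfl⟩ := card_eq_four.1 hS
  have key : ∀ {u v t : Fin n}, u ≠ v → u ≠ t → v ≠ t →
      u ∈ ({x, y, z, w} : Finset (Fin n)) → v ∈ ({x, y, z, w} : Finset (Fin n)) →
      t ∈ ({x, y, z, w} : Finset (Fin n)) → ({u, v, t} : Finset (Fin n)) ∈ encoded D P := by
    intro u v t h1 h2 h3 m1 m2 m3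
    apply hcon
    · intro a ha
      simp only [mem_insert, mem_singleton] at ha
      rcases ha with rfl | rfl | rfl <;> assumption
    · exact card_eq_three.2 ⟨u, v, t, h1, h2, h3, rfl⟩
  have h1 := mem_encoded hD hP hxy hxz hyz (key hxy hxz hyz (by simp) (by simp) (by simp))
  have h2 := mem_encoded hD hP hxy hxw hyw (key hxy hxw hyw (by simp) (by simp) (by simp))
  have h3 := mem_encoded hD hP hxz hxw hzw (key hxz hxw hzw (by simp) (by simp) (by simp))
  have h4 := mem_encoded hD hP hyz hyw hzw (key hyz hyw hzw (by simp) (by simp) (by simp))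
  have := four (compl D x y) (compl D x z) (compl D x w) (compl D y z) (compl D y w)
    (compl D z w) (gra P x y) (gra P x z) (gra P x w) (gra P y z) (gra P y w) (gra P z w)
  rw [h1, h2, h3, h4] at this
  cases this

/-- the reversed linear order of the vertices -/
def ord {n : ℕ} (z x : Fin n) : Prop := x < z

theorem ord_or {n : ℕ} (x y : Fin n) (h : ord x y) : ¬ ord y x := by
  unfold ord at h ⊢
  exact h.asymm

/-- the graph with the edges `xy`, `x < y`, such that `G x y` -/
def sy {n : ℕ} (G : Fin n → Fin n → Prop) (x y : Fin n) : Prop :=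
  (x < y ∧ G x y) ∨ (y < x ∧ G y x)

theorem sy_symm {n : ℕ} (G : Fin n → Fin n → Prop) (x y : Fin n) (h : sy G x y) : sy G y x := by
  unfold sy at h ⊢
  rcases h with h | h
  · exact Or.inr h
  · exact Or.inl h

theorem sy_iff {n : ℕ} (G : Fin n → Fin n → Prop) {x y : Fin n} (h : x < y) :
    sy G x y ↔ G x y := by
  unfold sy
  constructor
  · rintro (h1 | h1)
    · exact h1.2
    · exact absurd h1.1 h.asymm
  · intro h1
    exact Or.inl ⟨h, h1⟩

theorem mem_encoded_ord {n : ℕ} (G : Fin n → Fin n → Prop) {e : Finset (Fin n)} (h3 : e.card = 3)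
    {a b c : Fin n} (ha : a ∈ e) (hb : b ∈ e) (hc : c ∈ e) (hab : a < b) (hbc : b < c)
    (h4 : G a b) (h5 : ¬ (G a c ∧ G b c)) : e ∈ encoded ord (sy G) := by
  have hac := hab.trans hbc
  unfold encoded
  rw [mem_filter, mem_powersetCard]
  refine ⟨⟨subset_univ _, h3⟩, c, hc, a, ha, b, hb, hab.ne, hac, hbc, (sy_iff G hab).2 h4, ?_⟩
  rintro ⟨h6, h7⟩
  exact h5 ⟨(sy_iff G hac).1 (sy_symm G _ _ h6), (sy_iff G hbc).1 (sy_symm G _ _ h7)⟩

theorem hset_sub {n : ℕ} (G : Fin n → Fin n → Prop) :
    Pool.Agent.TH173.OE.hset G ⊆ encoded ord (sy G) := by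
  intro e he
  obtain ⟨h3, a, b, c, hab, hbc, h, h4, h5⟩ := (Pool.Agent.TH173.OE.mem_hset_iff G e).1 he
  exact mem_encoded_ord G h3 (by rw [h]; simp) (by rw [h]; simp) (by rw [h]; simp) hab hbc h4 h5

theorem lower (n : ℕ) : ∃ G : Fin n → Fin n → Prop,
    (encoded ord (sy G)).card + turan n = n.choose 3 := by
  have h1 := Pool.Agent.TH173.OE.sharp n
  have h2 := card_le_card (hset_sub
    (fun a b : Fin n => Pool.Agent.TH173.OE.gr (n / 3) ((n + 1) / 3) a b = true))
  have h3 := upper (n := n) ord_or (sy_symm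
    (fun a b : Fin n => Pool.Agent.TH173.OE.gr (n / 3) ((n + 1) / 3) a b = true))
  have h4 : turan n = Pool.Agent.TH173.OE.turan n := rfl
  refine ⟨fun a b : Fin n => Pool.Agent.TH173.OE.gr (n / 3) ((n + 1) / 3) a b = true, ?_⟩
  rw [h4] at h3 ⊢
  omega


end Pool.Agent.U378.Tour.Enc
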