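import Pool.Agent.U378.Tour.Piv
import Pool.Agent.TH173.OE.Sharp

/-!
# The exact Turán bound for 3-graphs given by a tournament and a graph

The edges are the triples `x, y, z` such that `z` is above `x` and `y`, `xy` is an edge of the graph
and `zx`, `zy` are not both edges. For linear orders this is `Pool.Agent.TH173.OE.general`; for
tournaments it follows from the average over the pivots.
-/

set_option autoImplicit false
set_option linter.unusedSectionVars false
open Finset

namespace Pool.Agent.U378.Tour

variable {V : Type} [Fintype V] [DecidableEq V]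

/-- the ordered edges: the top vertex and the two others -/
def tset (b P : V → V → Bool) : Finset (V × V × V) :=
  univ.filter fun t => (b t.1 t.2.1 && b t.1 t.2.2 && P t.2.1 t.2.2 &&
    !(P t.1 t.2.1 && P t.1 t.2.2)) = true

theorem mem_tset {b P : V → V → Bool} {z x y : V} : (z, x, y) ∈ tset b P ↔
    (b z x && b z y && P x y && !(P z x && P z y)) = true := by
  unfold tset
  simp

theorem card_tset (b P : V → V → Bool) : (tset b P).card = hh b P := by
  unfold tset hh val vb
  rw [card_filter, Fintype.sum_prod_type]
  apply sum_congr rfl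
  intro z _
  rw [Fintype.sum_prod_type]

/-- the vertices of an ordered edge -/
def vs (t : V × V × V) : Finset V := {t.1, t.2.1, t.2.2}

/-- the edges -/
def hs (b P : V → V → Bool) : Finset (Finset V) := (tset b P).image vs

theorem tset_facts {b P : V → V → Bool} (hb : Tourn b) (hP : Gr P) {z x y : V}
    (h : (z, x, y) ∈ tset b P) : z ≠ x ∧ z ≠ y ∧ x ≠ y ∧ b z x = true ∧ b z y = true ∧
      P x y = true := by
  rw [mem_tset] at h
  have h1 : b z x = true := by cases h' : b z x <;> simp_all
  have h2 : b z y = true := by cases h' : b z y <;> simp_all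
  have h3 : P x y = true := by cases h' : P x y <;> simp_all
  refine ⟨?_, ?_, ?_, h1, h2, h3⟩
  · rintro rfl
    rw [hb.1] at h1
    cases h1
  · rintro rfl
    rw [hb.1] at h2
    cases h2
  · rintro rfl
    rw [hP.1] at h3
    cases h3

theorem swap_mem {b P : V → V → Bool} (hP : Gr P) {z x y : V} (h : (z, x, y) ∈ tset b P) :
    (z, y, x) ∈ tset b P := by
  rw [mem_tset] at h ⊢
  rw [hP.2 y x]
  cases h1 : b z x <;> cases h2 : b z y <;> cases h3 : P x y <;> cases h4 : P z x <;>
    cases h5 : P z y <;> simp_all

theorem fiber {b P : V → V → Bool} (hb : Tourn b) (hP : Gr P) {z x y z' x' y' : V}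
    (h : (z, x, y) ∈ tset b P) (h' : (z', x', y') ∈ tset b P)
    (he : vs (z', x', y') = vs (z, x, y)) :
    (z', x', y') = (z, x, y) ∨ (z', x', y') = (z, y, x) := by
  obtain ⟨n1, n2, n3, a1, a2, _⟩ := tset_facts hb hP h
  obtain ⟨m1, m2, m3, c1, c2, _⟩ := tset_facts hb hP h'
  unfold vs at he
  simp only at he
  have as : ∀ u w : V, b u w = true → b w u = true → False := by
    intro u w h1 h2
    by_cases huw : u = w
    · subst huw
      rw [hb.1] at h1
      cases h1
    · have := hb.2 u w huw
      rw [h1, h2] at this
      cases this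
  have hz : z ∈ ({z', x', y'} : Finset V) := by rw [he]; simp
  have hz' : z' ∈ ({z, x, y} : Finset V) := by rw [← he]; simp
  have hx' : x' ∈ ({z, x, y} : Finset V) := by rw [← he]; simp
  have hy' : y' ∈ ({z, x, y} : Finset V) := by rw [← he]; simp
  simp only [mem_insert, mem_singleton] at hz hz' hx' hy'
  have hzz : z' = z := by
    rcases hz' with h1 | h1 | h1
    · exact h1
    · exfalso
      subst h1
      rcases hz with h2 | h2 | h2
      · exact n1 h2
      · rw [← h2] at c1
        exact as _ _ a1 c1
      · rw [← h2] at c2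
        exact as _ _ a1 c2
    · exfalso
      subst h1
      rcases hz with h2 | h2 | h2
      · exact n2 h2
      · rw [← h2] at c1
        exact as _ _ a2 c1
      · rw [← h2] at c2
        exact as _ _ a2 c2
  subst hzz
  rcases hx' with h1 | h1 | h1
  · exact absurd h1.symm m1
  · subst h1
    rcases hy' with h2 | h2 | h2
    · exact absurd h2.symm m2
    · exact absurd h2.symm m3
    · subst h2
      exact Or.inl rfl
  · subst h1
    rcases hy' with h2 | h2 | h2
    · exact absurd h2.symm m2
    · subst h2
      exact Or.inr rfl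
    · exact absurd h2.symm m3

theorem card_fiber {b P : V → V → Bool} (hb : Tourn b) (hP : Gr P) {e : Finset V}
    (he : e ∈ hs b P) : ((tset b P).filter fun t => vs t = e).card = 2 := by
  unfold hs at he
  obtain ⟨⟨z, x, y⟩, ht, rfl⟩ := mem_image.1 he
  obtain ⟨n1, n2, n3, _⟩ := tset_facts hb hP ht
  have : ((tset b P).filter fun t => vs t = vs (z, x, y)) = {(z, x, y), (z, y, x)} := by
    ext ⟨z', x', y'⟩
    rw [mem_filter, mem_insert, mem_singleton]
    constructor
    · rintro ⟨h1, h2⟩
      exact fiber hb hP ht h1 h2
    · rintro (h | h)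
      · rw [h]
        exact ⟨ht, rfl⟩
      · rw [h]
        refine ⟨swap_mem hP ht, ?_⟩
        unfold vs
        ext w
        simp only [mem_insert, mem_singleton]
        tauto
  rw [this, card_insert_of_notMem, card_singleton]
  rw [mem_singleton, Prod.mk.injEq, Prod.mk.injEq]
  rintro ⟨_, h, _⟩
  exact n3 h

theorem two_card_hs {b P : V → V → Bool} (hb : Tourn b) (hP : Gr P) :
    hh b P = 2 * (hs b P).card := by
  rw [← card_tset, card_eq_sum_card_fiberwise (f := vs) (t := hs b P)]
  · rw [sum_congr rfl fun e he => card_fiber hb hP he, sum_const, smul_eq_mul, mul_comm]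
  · intro t ht
    exact mem_image_of_mem _ ht

theorem card_of_mem_hs {b P : V → V → Bool} (hb : Tourn b) (hP : Gr P) {e : Finset V}
    (he : e ∈ hs b P) : e.card = 3 := by
  obtain ⟨⟨z, x, y⟩, ht, rfl⟩ := mem_image.1 he
  obtain ⟨n1, n2, n3, _⟩ := tset_facts hb hP ht
  unfold vs
  rw [card_insert_of_notMem, card_insert_of_notMem, card_singleton]
  · simpa using n3
  · simp [n1, n2]

theorem trans_of_acyclic {b : V → V → Bool} (hb : Tourn b) (h0 : cyc b = ∅) {x y w : V}
    (h1 : b x y = true) (h2 : b y w = true) : b x w = true := by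
  have nxw : x ≠ w := by
    rintro rfl
    have nxy : x ≠ y := by
      rintro rfl
      rw [hb.1] at h1
      cases h1
    have := hb.2 x y nxy
    rw [h1, h2] at this
    cases this
  by_contra h
  have h3 : b w x = true := by
    rw [hb.2 w x nxw.symm]
    cases h4 : b x w
    · rfl
    · exact absurd h4 h
  have : (x, y, w) ∈ cyc b := mem_cyc.2 ⟨h1, h2, h3⟩
  rw [h0] at this
  simp at this

set_option warn.classDefReducibility false in
/-- the linear order of an acyclic tournament -/
noncomputable def lo (b : V → V → Bool) (hb : Tourn b) (h0 : cyc b = ∅) : LinearOrder V where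
  le x y := x = y ∨ b y x = true
  le_refl x := Or.inl rfl
  le_trans x y w h1 h2 := by
    rcases h1 with rfl | h1
    · exact h2
    · rcases h2 with rfl | h2
      · exact Or.inr h1
      · exact Or.inr (trans_of_acyclic hb h0 h2 h1)
  le_antisymm x y h1 h2 := by
    rcases h1 with h1 | h1
    · exact h1
    · rcases h2 with h2 | h2
      · exact h2.symm
      · by_contra h
        have := hb.2 x y h
        rw [h1, h2] at this
        cases this
  le_total x y := by
    by_cases h : x = y
    · exact Or.inl (Or.inl h)
    · have := hb.2 x y h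
      cases h1 : b x y
      · left; right
        rw [h1] at this
        cases h2 : b y x
        · rw [h2] at this; cases this
        · rfl
      · exact Or.inr (Or.inr rfl)
  toDecidableLE := Classical.decRel _
  toDecidableEq := inferInstance

theorem lo_lt {b : V → V → Bool} {hb : Tourn b} {h0 : cyc b = ∅} {x y : V}
    (h : (lo b hb h0).lt x y) : b y x = true := by
  have h1 := (@lt_iff_le_not_ge V (lo b hb h0).toPreorder x y).1 h
  rcases h1.1 with h2 | h2
  · exact absurd (Or.inl h2.symm) h1.2
  · exact h2

/-- the bound for acyclic tournaments -/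
theorem acyclic_bound {b P : V → V → Bool} (hb : Tourn b) (hP : Gr P) (h0 : cyc b = ∅) :
    (hs b P).card + Pool.Agent.TH173.OE.turan (Fintype.card V) ≤ (Fintype.card V).choose 3 := by
  have h := @Pool.Agent.TH173.OE.general V _ (lo b hb h0) (fun x y => P x y = true) (hs b P)
    (fun e he => card_of_mem_hs hb hP he)
  apply h
  intro x y z hxy hyz he
  have b1 : b y x = true := lo_lt hxy
  have b2 : b z y = true := lo_lt hyz
  have b3 : b z x = true := trans_of_acyclic hb h0 b2 b1
  obtain ⟨⟨z', x', y'⟩, ht, hv⟩ := mem_image.1 he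
  obtain ⟨n1, n2, n3, a1, a2, a3⟩ := tset_facts hb hP ht
  rw [mem_tset] at ht
  unfold vs at hv
  simp only at hv
  have as : ∀ u w : V, b u w = true → b w u = true → False := by
    intro u w h1 h2
    by_cases huw : u = w
    · subst huw
      rw [hb.1] at h1
      cases h1
    · have := hb.2 u w huw
      rw [h1, h2] at this
      cases this
  have hm := Finset.ext_iff.1 hv
  simp only [mem_insert, mem_singleton] at hm
  have hz := (hm z).2 (Or.inr (Or.inr rfl))
  have hx := (hm x).2 (Or.inl rfl)
  have hy := (hm y).2 (Or.inr (Or.inl rfl))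
  have hz' := (hm z').1 (Or.inl rfl)
  have e1 : z' = z := by
    rcases hz' with h1 | h1 | h1
    · exfalso
      subst h1
      rcases hz with h2 | h2 | h2
      · rw [h2] at b3
        rw [hb.1] at b3
        cases b3
      · rw [← h2] at a1
        exact as _ _ a1 b3
      · rw [← h2] at a2
        exact as _ _ a2 b3
    · exfalso
      subst h1
      rcases hz with h2 | h2 | h2
      · rw [h2] at b2
        rw [hb.1] at b2
        cases b2
      · rw [← h2] at a1
        exact as _ _ a1 b2
      · rw [← h2] at a2
        exact as _ _ a2 b2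
    · exact h1
  subst e1
  have nx : x ≠ z' := by
    rintro rfl
    rw [hb.1] at b3
    cases b3
  have ny : y ≠ z' := by
    rintro rfl
    rw [hb.1] at b2
    cases b2
  have nxy : x ≠ y := by
    rintro rfl
    rw [hb.1] at b1
    cases b1
  have hx2 : x = x' ∨ x = y' := by
    rcases hx with h1 | h1
    · exact absurd h1 nx
    · exact h1
  have hy2 : y = x' ∨ y = y' := by
    rcases hy with h1 | h1
    · exact absurd h1 ny
    · exact h1
  have key : P x y = true ∧ ¬ (P z' x = true ∧ P z' y = true) := by
    rcases hx2 with h1 | h1 <;> rcases hy2 with h2 | h2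
    · exact absurd (h1.trans h2.symm) nxy
    · subst h1
      subst h2
      refine ⟨a3, ?_⟩
      rintro ⟨k1, k2⟩
      rw [k1, k2] at ht
      simp at ht
    · subst h1
      subst h2
      refine ⟨by rw [hP.2]; exact a3, ?_⟩
      rintro ⟨k1, k2⟩
      rw [k1, k2] at ht
      simp at ht
    · exact absurd (h1.trans h2.symm) nxy
  refine ⟨key.1, ?_⟩
  rintro ⟨k1, k2⟩
  exact key.2 ⟨by rw [hP.2]; exact k1, by rw [hP.2]; exact k2⟩

/-- **The bound for tournaments.** -/
theorem tournament_bound {b P : V → V → Bool} (hb : Tourn b) (hP : Gr P) :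
    (hs b P).card + Pool.Agent.TH173.OE.turan (Fintype.card V) ≤ (Fintype.card V).choose 3 := by
  obtain ⟨c, hc, h0, h1⟩ := exists_acyclic hb hP
  have h2 := acyclic_bound hc hP h0
  rw [two_card_hs hb hP, two_card_hs hc hP] at h1
  omega

end Pool.Agent.U378.Tour
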