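import Mathlib

/-!
# Tournaments and graphs: a random pivot

`b` is a tournament (`b z x = true`: the vertex `z` is above `x`), `P` a graph. `val b P z x y = 1`
if `z` is above `x` and `y`, `xy` is an edge of `P`, and `zx`, `zy` are not both edges of `P`. The
pivot of `b` at `v` turns all arcs between the vertices below `v` and the vertices above `v` upwards.
The sum of `val` over all triples of vertices does not decrease on average over `v`: this is a local
inequality on four vertices.
-/

set_option autoImplicit false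
set_option linter.unusedSectionVars false
open Finset

namespace Pool.Agent.U378.Tour

/-- the new arc `xy` from the arcs `vx`, `vy`, `xy` -/
def pb (vx vy xy : Bool) : Bool := if vx = vy then xy else vy

/-- the value of a triple -/
def vb (zx zy Pxy Pzx Pzy : Bool) : ℕ := if (zx && zy && Pxy && !(Pzx && Pzy)) = true then 1 else 0

/-- the local inequality on the vertices `p, q, r, s`; `xy = true` means that `x` is above `y` -/
theorem loc : ∀ pq pr ps qr qs rs Ppq Ppr Pps Pqr Pqs Prs : Bool,
    (vb qr qs Prs Pqr Pqs + vb (!qr) rs Pqs Pqr Prs + vb (!qs) (!rs) Pqr Pqs Prs) +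
    (vb pr ps Prs Ppr Pps + vb (!pr) rs Pps Ppr Prs + vb (!ps) (!rs) Ppr Pps Prs) +
    (vb pq ps Pqs Ppq Pps + vb (!pq) qs Pps Ppq Pqs + vb (!ps) (!qs) Ppq Pps Pqs) +
    (vb pq pr Pqr Ppq Ppr + vb (!pq) qr Ppr Ppq Pqr + vb (!pr) (!qr) Ppq Ppr Pqr) ≤
    (vb (pb pq pr qr) (pb pq ps qs) Prs Pqr Pqs + vb (pb pr pq (!qr)) (pb pr ps rs) Pqs Pqr Prs +
      vb (pb ps pq (!qs)) (pb ps pr (!rs)) Pqr Pqs Prs) +
    (vb (pb (!pq) qr pr) (pb (!pq) qs ps) Prs Ppr Pps + vb (pb qr (!pq) (!pr)) (pb qr qs rs) Pps Ppr Prs +
      vb (pb qs (!pq) (!ps)) (pb qs qr (!rs)) Ppr Pps Prs) +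
    (vb (pb (!pr) (!qr) pq) (pb (!pr) rs ps) Pqs Ppq Pps +
      vb (pb (!qr) (!pr) (!pq)) (pb (!qr) rs qs) Pps Ppq Pqs +
      vb (pb rs (!pr) (!ps)) (pb rs (!qr) (!qs)) Ppq Pps Pqs) +
    (vb (pb (!ps) (!qs) pq) (pb (!ps) (!rs) pr) Pqr Ppq Ppr +
      vb (pb (!qs) (!ps) (!pq)) (pb (!qs) (!rs) qr) Ppr Ppq Pqr +
      vb (pb (!rs) (!ps) (!pr)) (pb (!rs) (!qs) (!qr)) Ppq Ppr Pqr) := by
  decide +kernel

variable {V : Type} [Fintype V] [DecidableEq V]

/-- `b` is a tournament -/
def Tourn (b : V → V → Bool) : Prop := (∀ x, b x x = false) ∧ ∀ x y, x ≠ y → b x y = !b y x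

/-- `P` is a graph -/
def Gr (P : V → V → Bool) : Prop := (∀ x, P x x = false) ∧ ∀ x y, P x y = P y x

/-- the pivot of `b` at `v` -/
def piv (b : V → V → Bool) (v x y : V) : Bool :=
  if x = v ∨ y = v then b x y else pb (b v x) (b v y) (b x y)

/-- the value of a triple -/
def val (b P : V → V → Bool) (z x y : V) : ℕ := vb (b z x) (b z y) (P x y) (P z x) (P z y)

theorem piv_tourn {b : V → V → Bool} (hb : Tourn b) (v : V) : Tourn (piv b v) := by
  refine ⟨fun x => ?_, fun x y hxy => ?_⟩
  · unfold piv pb
    rw [if_pos rfl, hb.1 x]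
    split_ifs <;> rfl
  · have h := hb.2 x y hxy
    unfold piv pb
    by_cases h1 : x = v
    · rw [if_pos (Or.inl h1), if_pos (Or.inr h1), h]
    · by_cases h2 : y = v
      · rw [if_pos (Or.inr h2), if_pos (Or.inl h2), h]
      · rw [if_neg (not_or.2 ⟨h1, h2⟩), if_neg (not_or.2 ⟨h2, h1⟩)]
        by_cases h3 : b v x = b v y
        · rw [if_pos h3, if_pos h3.symm, h]
        · rw [if_neg h3, if_neg (Ne.symm h3)]
          cases h4 : b v x <;> cases h5 : b v y <;> simp_all

/-- all four vertices are different -/
def Di (v z x y : V) : Prop := v ≠ z ∧ v ≠ x ∧ v ≠ y ∧ z ≠ x ∧ z ≠ y ∧ x ≠ y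

theorem val_le_of_not_di {b P : V → V → Bool} (hb : Tourn b) (hP : Gr P) {v z x y : V}
    (h : ¬ Di v z x y) : val b P z x y ≤ val (piv b v) P z x y := by
  unfold val vb
  by_cases h0 : (b z x && b z y && P x y && !(P z x && P z y)) = true
  · have hzx : b z x = true := by
      cases h1 : b z x <;> simp_all
    have hzy : b z y = true := by
      cases h1 : b z y <;> simp_all
    have hxy : P x y = true := by
      cases h1 : P x y <;> simp_all
    have n1 : z ≠ x := by
      rintro rfl
      rw [hb.1] at hzx
      cases hzx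
    have n2 : z ≠ y := by
      rintro rfl
      rw [hb.1] at hzy
      cases hzy
    have n3 : x ≠ y := by
      rintro rfl
      rw [hP.1] at hxy
      cases hxy
    have k : piv b v z x = true ∧ piv b v z y = true := by
      unfold Di at h
      by_cases e1 : v = z
      · subst e1
        unfold piv
        rw [if_pos (Or.inl rfl), if_pos (Or.inl rfl)]
        exact ⟨hzx, hzy⟩
      · by_cases e2 : v = x
        · subst e2
          unfold piv
          rw [if_pos (Or.inr rfl), if_neg (by tauto)]
          refine ⟨hzx, ?_⟩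
          unfold pb
          have h2 : b v z = false := by
            rw [hb.2 v z e1, hzx]; rfl
          cases h3 : b v y
          · rw [if_pos (by rw [h2])]; exact hzy
          · rw [if_neg (by rw [h2]; simp)]
        · have e3 : v = y := by
            by_contra e3
            exact h ⟨e1, e2, e3, n1, n2, n3⟩
          subst e3
          unfold piv
          rw [if_pos (Or.inr rfl : z = v ∨ v = v), if_neg (by tauto)]
          refine ⟨?_, hzy⟩
          unfold pb
          have h2 : b v z = false := by
            rw [hb.2 v z e1, hzy]; rfl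
          cases h3 : b v x
          · rw [if_pos (by rw [h2])]; exact hzx
          · rw [if_neg (by rw [h2]; simp)]
    rw [k.1, k.2, hzx, hzy]
  · rw [if_neg h0]
    exact Nat.zero_le _

/-- values of the pivot on four different vertices -/
theorem val_piv (b P : V → V → Bool) {v z x y : V} (h1 : v ≠ z) (h2 : v ≠ x) (h3 : v ≠ y) :
    val (piv b v) P z x y =
      vb (pb (b v z) (b v x) (b z x)) (pb (b v z) (b v y) (b z y)) (P x y) (P z x) (P z y) := by
  unfold val piv
  rw [if_neg (by tauto), if_neg (by tauto)]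

open scoped Classical in
/-- the part of a function on different vertices -/
noncomputable def dd (F : V → V → V → V → ℕ) (v z x y : V) : ℕ := if Di v z x y then F v z x y else 0

/-- the sum over the twelve roles -/
def twelve (F : V → V → V → V → ℕ) (p q r s : V) : ℕ :=
  (F p q r s + F p r q s + F p s q r) + (F q p r s + F q r p s + F q s p r) +
  (F r p q s + F r q p s + F r s p q) + (F s p q r + F s q p r + F s r p q)

theorem local_le {b P : V → V → Bool} (hb : Tourn b) (hP : Gr P) (p q r s : V) :
    twelve (dd fun _ z x y => val b P z x y) p q r s ≤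
      twelve (dd fun v z x y => val (piv b v) P z x y) p q r s := by
  by_cases hd : Di p q r s
  · obtain ⟨n1, n2, n3, n4, n5, n6⟩ := hd
    have n1' := n1.symm
    have n2' := n2.symm
    have n3' := n3.symm
    have n4' := n4.symm
    have n5' := n5.symm
    have n6' := n6.symm
    unfold twelve dd
    simp only [Di, ne_eq, n1, n2, n3, n4, n5, n6, n1', n2', n3', n4', n5', n6', not_false_eq_true,
      and_self, if_true]
    rw [val_piv b P n1 n2 n3, val_piv b P n2 n1 n3, val_piv b P n3 n1 n2,
      val_piv b P n1' n4 n5, val_piv b P n4 n1' n5, val_piv b P n5 n1' n4,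
      val_piv b P n2' n4' n6, val_piv b P n4' n2' n6, val_piv b P n6 n2' n4',
      val_piv b P n3' n5' n6', val_piv b P n5' n3' n6', val_piv b P n6' n3' n5']
    unfold val
    have t1 := hb.2 q p n1'
    have t2 := hb.2 r p n2'
    have t3 := hb.2 s p n3'
    have t4 := hb.2 r q n4'
    have t5 := hb.2 s q n5'
    have t6 := hb.2 s r n6'
    have P1 := hP.2 q p
    have P2 := hP.2 r p
    have P3 := hP.2 s p
    have P4 := hP.2 r q
    have P5 := hP.2 s q
    have P6 := hP.2 s r
    rw [t1, t2, t3, t4, t5, t6, P1, P2, P3, P4, P5, P6]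
    have h := loc (b p q) (b p r) (b p s) (b q r) (b q s) (b r s) (P p q) (P p r) (P p s) (P q r)
      (P q s) (P r s)
    exact h
  · have hz : ∀ F : V → V → V → V → ℕ, twelve (dd F) p q r s = 0 := by
      intro F
      unfold twelve dd
      unfold Di at hd ⊢
      rw [if_neg (by tauto), if_neg (by tauto), if_neg (by tauto), if_neg (by tauto),
        if_neg (by tauto), if_neg (by tauto), if_neg (by tauto), if_neg (by tauto),
        if_neg (by tauto), if_neg (by tauto), if_neg (by tauto), if_neg (by tauto)]
    rw [hz, hz]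

/-! ### sums over four vertices -/

/-- the sum over all quadruples -/
def tot (F : V → V → V → V → ℕ) : ℕ := ∑ p, ∑ q, ∑ r, ∑ s, F p q r s

theorem tot12 (F : V → V → V → V → ℕ) : tot (fun p q r s => F q p r s) = tot F := by
  unfold tot
  rw [sum_comm]

theorem tot23 (F : V → V → V → V → ℕ) : tot (fun p q r s => F p r q s) = tot F := by
  unfold tot
  exact sum_congr rfl fun p _ => sum_comm

theorem tot34 (F : V → V → V → V → ℕ) : tot (fun p q r s => F p q s r) = tot F := by
  unfold tot
  exact sum_congr rfl fun p _ => sum_congr rfl fun q _ => sum_comm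

theorem tot_add (F G : V → V → V → V → ℕ) :
    tot (fun p q r s => F p q r s + G p q r s) = tot F + tot G := by
  unfold tot
  simp only [sum_add_distrib]

theorem tot_le {F G : V → V → V → V → ℕ} (h : ∀ p q r s, F p q r s ≤ G p q r s) : tot F ≤ tot G :=
  sum_le_sum fun p _ => sum_le_sum fun q _ => sum_le_sum fun r _ => sum_le_sum fun s _ => h p q r s

theorem tot_twelve (F : V → V → V → V → ℕ) : tot (twelve F) = 12 * tot F := by
  have a1 : tot (fun p q r s => F p r q s) = tot F := tot23 F
  have a2 : tot (fun p q r s => F p s q r) = tot F := by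
    rw [← a1]; exact tot34 fun p q r s => F p r q s
  have a3 : tot (fun p q r s => F q p r s) = tot F := tot12 F
  have a4 : tot (fun p q r s => F q r p s) = tot F := by
    rw [← a1]; exact tot12 fun p q r s => F p r q s
  have a5 : tot (fun p q r s => F q s p r) = tot F := by
    rw [← a2]; exact tot12 fun p q r s => F p s q r
  have a6 : tot (fun p q r s => F r p q s) = tot F := by
    rw [← a3]; exact tot23 fun p q r s => F q p r s
  have a7 : tot (fun p q r s => F r q p s) = tot F := by
    rw [← a4]; exact tot23 fun p q r s => F q r p s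
  have a8 : tot (fun p q r s => F r s p q) = tot F := by
    rw [← a5]; exact tot23 fun p q r s => F q s p r
  have a9 : tot (fun p q r s => F s p q r) = tot F := by
    rw [← a6]; exact tot34 fun p q r s => F r p q s
  have a10 : tot (fun p q r s => F s q p r) = tot F := by
    rw [← a7]; exact tot34 fun p q r s => F r q p s
  have a11 : tot (fun p q r s => F s r p q) = tot F := by
    rw [← a8]; exact tot34 fun p q r s => F r s p q
  unfold twelve
  simp only [tot_add]
  have a0 : tot (fun p q r s => F p q r s) = tot F := rfl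
  rw [a0, a1, a2, a3, a4, a5, a6, a7, a8, a9, a10, a11]
  ring

/-- the number of (ordered) edges -/
def hh (b P : V → V → Bool) : ℕ := ∑ z, ∑ x, ∑ y, val b P z x y

/-- **Pivoting at a random vertex does not decrease the number of edges.** -/
theorem pivot_average {b P : V → V → Bool} (hb : Tourn b) (hP : Gr P) :
    Fintype.card V * hh b P ≤ ∑ v, hh (piv b v) P := by
  have h1 : tot (dd fun _ z x y => val b P z x y) ≤
      tot (dd fun v z x y => val (piv b v) P z x y) := by
    have h := tot_le (local_le hb hP)
    rw [tot_twelve, tot_twelve] at h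
    omega
  have h2 : tot (fun v z x y => val b P z x y + dd (fun v z x y => val (piv b v) P z x y) v z x y) ≤
      tot (fun v z x y => val (piv b v) P z x y + dd (fun _ z x y => val b P z x y) v z x y) := by
    apply tot_le
    intro v z x y
    by_cases hd : Di v z x y
    · unfold dd
      rw [if_pos hd, if_pos hd, add_comm]
    · unfold dd
      rw [if_neg hd, if_neg hd, add_zero, add_zero]
      exact val_le_of_not_di hb hP hd
  rw [tot_add, tot_add] at h2
  have h3 : tot (fun (_ : V) z x y => val b P z x y) = Fintype.card V * hh b P := by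
    unfold tot hh
    rw [sum_const, card_univ, smul_eq_mul]
  have h4 : tot (fun v z x y => val (piv b v) P z x y) = ∑ v, hh (piv b v) P := rfl
  have h5 : tot (fun v z x y => dd (fun v z x y => val (piv b v) P z x y) v z x y) =
      tot (dd fun v z x y => val (piv b v) P z x y) := rfl
  have h6 : tot (fun v z x y => dd (fun _ z x y => val b P z x y) v z x y) =
      tot (dd fun _ z x y => val b P z x y) := rfl
  rw [h3, h4, h5, h6] at h2
  omega

/-! ### cyclic triples -/

/-- the cyclic triples -/
def cyc (b : V → V → Bool) : Finset (V × V × V) :=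
  univ.filter fun t => b t.1 t.2.1 = true ∧ b t.2.1 t.2.2 = true ∧ b t.2.2 t.1 = true

theorem mem_cyc {b : V → V → Bool} {x y w : V} :
    (x, y, w) ∈ cyc b ↔ b x y = true ∧ b y w = true ∧ b w x = true := by
  unfold cyc
  simp

theorem piv_cases (b : V → V → Bool) (v x y : V) (h : piv b v x y = true) (hx : x ≠ v) (hy : y ≠ v) :
    (b v x = b v y ∧ b x y = true) ∨ (b v x = false ∧ b v y = true) := by
  unfold piv pb at h
  rw [if_neg (not_or.2 ⟨hx, hy⟩)] at h
  by_cases h1 : b v x = b v y
  · rw [if_pos h1] at h
    exact Or.inl ⟨h1, h⟩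
  · rw [if_neg h1] at h
    right
    rw [h] at h1
    exact ⟨by simpa using h1, h⟩

theorem no_cyc_at {b : V → V → Bool} (hb : Tourn b) {v y w : V} (h1 : piv b v v y = true)
    (h2 : piv b v y w = true) (h3 : piv b v w v = true) : False := by
  have e1 : b v y = true := by
    unfold piv at h1
    rwa [if_pos (Or.inl rfl)] at h1
  have e3 : b w v = true := by
    unfold piv at h3
    rwa [if_pos (Or.inr rfl)] at h3
  have n1 : v ≠ y := by
    rintro rfl
    rw [hb.1] at e1
    cases e1
  have n2 : w ≠ v := by
    rintro rfl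
    rw [hb.1] at e3
    cases e3
  have e4 : b v w = false := by
    rw [hb.2 v w n2.symm, e3]; rfl
  rcases piv_cases b v y w h2 n1.symm n2 with ⟨h, _⟩ | ⟨h, _⟩
  · rw [e1, e4] at h
    cases h
  · rw [e1] at h
    cases h

theorem cyc_piv_subset {b : V → V → Bool} (hb : Tourn b) (v : V) : cyc (piv b v) ⊆ cyc b := by
  rintro ⟨x, y, w⟩ h
  rw [mem_cyc] at h ⊢
  obtain ⟨h1, h2, h3⟩ := h
  by_cases nx : x = v
  · subst nx
    exact (no_cyc_at hb h1 h2 h3).elim
  by_cases ny : y = v
  · subst ny
    exact (no_cyc_at hb h2 h3 h1).elim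
  by_cases nw : w = v
  · subst nw
    exact (no_cyc_at hb h3 h1 h2).elim
  rcases piv_cases b v x y h1 nx ny with ⟨a1, a2⟩ | ⟨a1, a2⟩ <;>
    rcases piv_cases b v y w h2 ny nw with ⟨c1, c2⟩ | ⟨c1, c2⟩ <;>
      rcases piv_cases b v w x h3 nw nx with ⟨d1, d2⟩ | ⟨d1, d2⟩ <;>
        first
        | exact ⟨a2, c2, d2⟩
        | (exfalso; revert a1 a2 c1 c2 d1 d2; cases b v x <;> cases b v y <;> cases b v w <;> simp)

/-- a tournament without cyclic triples with at least as many edges -/
theorem exists_acyclic {b P : V → V → Bool} (hb : Tourn b) (hP : Gr P) :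
    ∃ c : V → V → Bool, Tourn c ∧ cyc c = ∅ ∧ hh b P ≤ hh c P := by
  classical
  let S : Finset (V → V → Bool) := univ.filter fun c => Tourn c
  have hS : b ∈ S := by simp [S, hb]
  obtain ⟨m, hm, hmax⟩ := exists_max_image S (fun c => hh c P) ⟨b, hS⟩
  let S' : Finset (V → V → Bool) := S.filter fun c => hh c P = hh m P
  have hm' : m ∈ S' := by simp [S', hm]
  obtain ⟨c, hc, hmin⟩ := exists_min_image S' (fun c => (cyc c).card) ⟨m, hm'⟩
  have hcS : c ∈ S := (mem_filter.1 hc).1
  have hcm : hh c P = hh m P := (mem_filter.1 hc).2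
  have hcT : Tourn c := (mem_filter.1 hcS).2
  refine ⟨c, hcT, ?_, ?_⟩
  · by_contra hne
    obtain ⟨⟨v, y, w⟩, hv⟩ := nonempty_iff_ne_empty.2 hne
    have h1 : ∀ u, hh (piv c u) P ≤ hh c P := by
      intro u
      rw [hcm]
      exact hmax _ (by simp [S, piv_tourn hcT u])
    have h2 := pivot_average hcT hP
    have h3 : ∑ u : V, hh c P = Fintype.card V * hh c P := by
      rw [sum_const, card_univ, smul_eq_mul]
    have h4 : hh (piv c v) P = hh c P := by
      by_contra h5
      have h6 : ∑ u, hh (piv c u) P < ∑ u : V, hh c P :=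
        sum_lt_sum (fun u _ => h1 u) ⟨v, mem_univ _, lt_of_le_of_ne (h1 v) h5⟩
      omega
    have h5 : piv c v ∈ S' := by
      simp only [S', S, mem_filter, mem_univ, true_and]
      exact ⟨piv_tourn hcT v, h4.trans hcm⟩
    have h6 := hmin _ h5
    have h7 : cyc (piv c v) ⊂ cyc c := by
      refine ⟨cyc_piv_subset hcT v, fun h => ?_⟩
      have h8 := mem_cyc.1 (h hv)
      exact no_cyc_at hcT h8.1 h8.2.1 h8.2.2
    have := card_lt_card h7
    omega
  · rw [hcm]
    exact hmax b hS

end Pool.Agent.U378.Tour
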